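import Pool.Agent.Lib.MP_c3d375_an.Neg.Iface

/-!
# TW: the numerical range of the 2x2 matrix lies in C1
-/

set_option autoImplicit false

open Complex Metric Set Filter Topology ComplexConjugate Pool.Agent.Lib.MP_c3d375_an

namespace C3N.H69

/-- difference of two values of `chi` -/
theorem chi_sub {a e : ℝ} (ha : 0 < a) {z ζ : ℂ} (hz : (1 - a * z : ℂ) ≠ 0)
    (hζ : (1 - a * ζ : ℂ) ≠ 0) :
    chi a e ζ - chi a e z = (ζ - z) * (1 + e * (1 - a * ζ)⁻¹ * (1 - a * z)⁻¹) := by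
  have ha' : (a : ℂ) ≠ 0 := by exact_mod_cast ha.ne'
  have hB := inv_mul_cancel₀ hz
  have hp := inv_mul_cancel₀ hζ
  rw [chi, chi, div_eq_mul_inv, div_eq_mul_inv]
  push_cast
  set p := (1 - a * ζ : ℂ)⁻¹ with hpdef
  set B := (1 - a * z : ℂ)⁻¹ with hBdef
  have h1 : p - B = a * (ζ - z) * p * B := by
    linear_combination (-p) * hB + B * hp
  have h2 : (e / a : ℂ) * (p - B) = (ζ - z) * e * p * B := by
    rw [h1]
    field_simp
  linear_combination h2

/-- the data at a point of the circle -/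
theorem point_bounds {a e A : ℝ} (ha0 : 0 < a) (ha1 : a < 1) (he : 0 < e)
    (hA : A = (1 - a)⁻¹) (heA : e * A ^ 3 ≤ 1 / 100) (hA2 : 2 ≤ A) {ζ : ℂ} (hζ : ‖ζ‖ = 1) :
    ∀ (τ B : ℝ), (τ = 1 ∨ τ = -1) → 0 ≤ B → B ≤ A →
      9 / 10 * (1 - τ * ζ.re) ≤ (conj (1 + e * ((1 - a * ζ)⁻¹) ^ 2 : ℂ) *
        (1 + e * (1 - a * ζ)⁻¹ * B) * (conj ζ * (ζ - τ))).re := by
  intro τ B hτ hB0 hBA
  set c := ζ.re with hc
  set s := ζ.im with hs
  have hcs : c ^ 2 + s ^ 2 = 1 := by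
    have : ‖ζ‖ ^ 2 = c ^ 2 + s ^ 2 := by
      rw [← Complex.normSq_eq_norm_sq, Complex.normSq_apply]
      ring
    rw [← this, hζ, one_pow]
  have hc1 : c ≤ 1 := by nlinarith [sq_nonneg s]
  have hc2 : -1 ≤ c := by nlinarith [sq_nonneg s]
  have hA0 : 0 < A := by linarith
  have h1a : 0 < 1 - a := by linarith
  set D : ℂ := 1 - a * ζ with hD
  have hDre : D.re = 1 - a * c := by simp [hD, hc]
  have hDim : D.im = -(a * s) := by simp [hD, hs]
  have hDn : 1 - a ≤ ‖D‖ := by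
    refine le_trans ?_ (Complex.re_le_norm D)
    rw [hDre]
    nlinarith
  have hD0 : D ≠ 0 := by
    intro h
    rw [h, norm_zero] at hDn
    linarith
  set p : ℂ := D⁻¹ with hp
  have hpn : ‖p‖ ≤ A := by
    rw [hp, norm_inv, hA]
    exact inv_anti₀ h1a hDn
  set N : ℝ := Complex.normSq p with hN
  have hN0 : 0 ≤ N := Complex.normSq_nonneg _
  have hNA : N ≤ A ^ 2 := by
    rw [hN, Complex.normSq_eq_norm_sq]
    gcongr
  have hpim : p.im = a * s * N := by
    rw [hp, Complex.inv_im, hDim, hN, hp, Complex.normSq_inv]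
    ring
  have hpre : |p.re| ≤ A := (Complex.abs_re_le_norm p).trans hpn
  have hNe : N = p.re ^ 2 + p.im ^ 2 := by
    rw [hN, Complex.normSq_apply]
    ring
  set u := p.re with hu
  set v := p.im with hv
  -- the product
  have hre : (conj (1 + e * p ^ 2 : ℂ) * (1 + e * p * B) * (conj ζ * (ζ - τ))).re =
      (1 + e * (u ^ 2 - v ^ 2) + e * B * u + e ^ 2 * B * N * u) * (1 - τ * c) -
        (v * e * (B - 2 * u - e * B * N)) * (τ * s) := by
    have h1 : (conj ζ * (ζ - τ)).re = 1 - τ * c := by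
      simp only [Complex.mul_re, Complex.sub_re, Complex.sub_im, Complex.conj_re, Complex.conj_im,
        Complex.ofReal_re, Complex.ofReal_im, ← hc, ← hs]
      nlinarith
    have h2 : (conj ζ * (ζ - τ)).im = τ * s := by
      simp only [Complex.mul_im, Complex.sub_re, Complex.sub_im, Complex.conj_re, Complex.conj_im,
        Complex.ofReal_re, Complex.ofReal_im, ← hc, ← hs]
      ring
    have h3 : (conj (1 + e * p ^ 2 : ℂ) * (1 + e * p * B)).re =
        1 + e * (u ^ 2 - v ^ 2) + e * B * u + e ^ 2 * B * N * u := by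
      simp only [Complex.mul_re, Complex.mul_im, Complex.add_re, Complex.add_im, Complex.conj_re,
        Complex.conj_im, Complex.ofReal_re, Complex.ofReal_im, Complex.one_re, Complex.one_im,
        pow_two, ← hu, ← hv]
      rw [hNe]
      ring
    have h4 : (conj (1 + e * p ^ 2 : ℂ) * (1 + e * p * B)).im =
        v * e * (B - 2 * u - e * B * N) := by
      simp only [Complex.mul_re, Complex.mul_im, Complex.add_re, Complex.add_im, Complex.conj_re,
        Complex.conj_im, Complex.ofReal_re, Complex.ofReal_im, Complex.one_re, Complex.one_im,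
        pow_two, ← hu, ← hv]
      rw [hNe]
      ring
    rw [Complex.mul_re, h1, h2, h3, h4]
  rw [hre]
  -- factor `1 - τ c`
  have hτ2 : τ ^ 2 = 1 := by
    rcases hτ with rfl | rfl <;> norm_num
  have hs2 : s ^ 2 = (1 - τ * c) * (1 + τ * c) := by
    have : (1 - τ * c) * (1 + τ * c) = 1 - τ ^ 2 * c ^ 2 := by ring
    rw [this, hτ2]
    linarith
  have hτc : 0 ≤ 1 - τ * c := by
    rcases hτ with rfl | rfl <;> linarith
  have hτc2 : |τ * (1 + τ * c)| ≤ 2 := by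
    rcases hτ with rfl | rfl
    · rw [abs_le]
      constructor <;> linarith
    · rw [abs_le]
      constructor <;> linarith
  have e1 : v * e * (B - 2 * u - e * B * N) * (τ * s) =
      (1 - τ * c) * (a * N * e * (B - 2 * u - e * B * N) * (τ * (1 + τ * c))) := by
    have : v * e * (B - 2 * u - e * B * N) * (τ * s) =
        s ^ 2 * (a * N * e * (B - 2 * u - e * B * N) * τ) := by
      rw [hpim]
      ring
    rw [this, hs2]
    ring
  rw [e1]
  have heA2 : e * A ^ 2 ≤ 1 / 200 := by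
    have : e * A ^ 2 * 2 ≤ e * A ^ 2 * A := by gcongr
    have e2 : e * A ^ 2 * A = e * A ^ 3 := by ring
    linarith
  -- bound of the imaginary factor
  have h5 : |a * N * e * (B - 2 * u - e * B * N) * (τ * (1 + τ * c))| ≤ 7 / 100 := by
    rw [abs_mul, abs_mul, abs_of_nonneg (show 0 ≤ a * N * e by positivity)]
    have h6 : |B - 2 * u - e * B * N| ≤ 3 * A + 1 / 200 * A := by
      have h7 : |B - 2 * u - e * B * N| ≤ |B| + 2 * |u| + |e * B * N| := by
        have h8 := abs_sub (B - 2 * u) (e * B * N)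
        have h9 := abs_sub B (2 * u)
        rw [abs_mul 2 u, abs_two] at h9
        linarith
      have h8 : |e * B * N| ≤ 1 / 200 * A := by
        rw [abs_of_nonneg (by positivity)]
        calc e * B * N ≤ e * A * A ^ 2 := by gcongr
          _ = (e * A ^ 2) * A := by ring
          _ ≤ 1 / 200 * A := by gcongr
      rw [abs_of_nonneg hB0] at h7
      linarith
    have h9 : a * N * e ≤ 1 * A ^ 2 * e := by gcongr
    calc a * N * e * |B - 2 * u - e * B * N| * |τ * (1 + τ * c)|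
        ≤ 1 * A ^ 2 * e * (3 * A + 1 / 200 * A) * 2 := by gcongr
      _ = (e * A ^ 3) * (601 / 100) := by ring
      _ ≤ 1 / 100 * (601 / 100) := by gcongr
      _ ≤ 7 / 100 := by norm_num
  -- bound of the real factor
  have h10 : 97 / 100 ≤ 1 + e * (u ^ 2 - v ^ 2) + e * B * u + e ^ 2 * B * N * u := by
    have hu2 : |u ^ 2 - v ^ 2| ≤ A ^ 2 := by
      rw [abs_le]
      constructor <;> nlinarith [sq_nonneg u, sq_nonneg v]
    have h11 : -(1 / 200) ≤ e * (u ^ 2 - v ^ 2) := by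
      have : e * |u ^ 2 - v ^ 2| ≤ e * A ^ 2 := by gcongr
      have h12 := neg_abs_le (u ^ 2 - v ^ 2)
      nlinarith
    have h13 : |e * B * u| ≤ 1 / 200 := by
      rw [abs_mul, abs_of_nonneg (by positivity)]
      calc e * B * |u| ≤ e * A * A := by gcongr
        _ = e * A ^ 2 := by ring
        _ ≤ 1 / 200 := heA2
    have h14 : |e ^ 2 * B * N * u| ≤ 1 / 200 := by
      rw [abs_mul, abs_of_nonneg (by positivity)]
      calc e ^ 2 * B * N * |u| ≤ e ^ 2 * A * A ^ 2 * A := by gcongr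
        _ = (e * A ^ 2) * (e * A ^ 2) := by ring
        _ ≤ (1 / 200) * (1 / 200) := by gcongr
        _ ≤ 1 / 200 := by norm_num
    have h15 := neg_abs_le (e * B * u)
    have h16 := neg_abs_le (e ^ 2 * B * N * u)
    linarith
  have h17 := le_abs_self (a * N * e * (B - 2 * u - e * B * N) * (τ * (1 + τ * c)))
  have h18 : (1 - τ * c) * (a * N * e * (B - 2 * u - e * B * N) * (τ * (1 + τ * c))) ≤
      (1 - τ * c) * (7 / 100) := by
    apply mul_le_mul_of_nonneg_left _ hτc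
    linarith
  have h19 : (97 / 100) * (1 - τ * c) ≤
      (1 + e * (u ^ 2 - v ^ 2) + e * B * u + e ^ 2 * B * N * u) * (1 - τ * c) := by
    apply mul_le_mul_of_nonneg_right h10 hτc
  linarith

/-- imaginary part of `n` -/
theorem im_n_bound {a e A : ℝ} (ha0 : 0 < a) (ha1 : a < 1) (he : 0 < e)
    (hA : A = (1 - a)⁻¹) (heA : e * A ^ 3 ≤ 1 / 100) (hA2 : 2 ≤ A) {ζ : ℂ} (hζ : ‖ζ‖ = 1) :
    |(ζ * (1 + e * ((1 - a * ζ)⁻¹) ^ 2)).im| ≤ 11 / 10 * |ζ.im| := by
  set c := ζ.re with hc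
  set s := ζ.im with hs
  have hcs : c ^ 2 + s ^ 2 = 1 := by
    have : ‖ζ‖ ^ 2 = c ^ 2 + s ^ 2 := by
      rw [← Complex.normSq_eq_norm_sq, Complex.normSq_apply]
      ring
    rw [← this, hζ, one_pow]
  have hc1 : |c| ≤ 1 := by
    rw [abs_le]
    constructor <;> nlinarith [sq_nonneg s]
  have hA0 : 0 < A := by linarith
  have h1a : 0 < 1 - a := by linarith
  set D : ℂ := 1 - a * ζ with hD
  have hDre : D.re = 1 - a * c := by simp [hD, hc]
  have hDim : D.im = -(a * s) := by simp [hD, hs]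
  have hDn : 1 - a ≤ ‖D‖ := by
    refine le_trans ?_ (Complex.re_le_norm D)
    rw [hDre]
    have := (abs_le.1 hc1).2
    nlinarith
  set p : ℂ := D⁻¹ with hp
  have hpn : ‖p‖ ≤ A := by
    rw [hp, norm_inv, hA]
    exact inv_anti₀ h1a hDn
  set N : ℝ := Complex.normSq p with hN
  have hN0 : 0 ≤ N := Complex.normSq_nonneg _
  have hNA : N ≤ A ^ 2 := by
    rw [hN, Complex.normSq_eq_norm_sq]
    gcongr
  have hpim : p.im = a * s * N := by
    rw [hp, Complex.inv_im, hDim, hN, hp, Complex.normSq_inv]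
    ring
  have hpre : |p.re| ≤ A := (Complex.abs_re_le_norm p).trans hpn
  have hNe : N = p.re ^ 2 + p.im ^ 2 := by
    rw [hN, Complex.normSq_apply]
    ring
  set u := p.re with hu
  set v := p.im with hv
  have e1 : (ζ * (1 + e * p ^ 2)).im = s * (1 + e * (u ^ 2 - v ^ 2) + e * (2 * a * c * u * N)) := by
    simp only [Complex.mul_re, Complex.mul_im, Complex.add_re, Complex.add_im, Complex.ofReal_re,
      Complex.ofReal_im, Complex.one_re, Complex.one_im, pow_two, ← hu, ← hv, ← hc, ← hs]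
    linear_combination (2 * c * e * u) * hpim
  rw [e1, abs_mul, mul_comm]
  apply mul_le_mul_of_nonneg_right _ (abs_nonneg s)
  have heA2 : e * A ^ 2 ≤ 1 / 200 := by
    have : e * A ^ 2 * 2 ≤ e * A ^ 2 * A := by gcongr
    have e2 : e * A ^ 2 * A = e * A ^ 3 := by ring
    linarith
  have hu2 : |u ^ 2 - v ^ 2| ≤ A ^ 2 := by
    rw [abs_le]
    constructor <;> nlinarith [sq_nonneg u, sq_nonneg v]
  have h1 : |e * (u ^ 2 - v ^ 2)| ≤ 1 / 200 := by
    rw [abs_mul, abs_of_pos he]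
    calc e * |u ^ 2 - v ^ 2| ≤ e * A ^ 2 := by gcongr
      _ ≤ 1 / 200 := heA2
  have h2 : |e * (2 * a * c * u * N)| ≤ 2 / 100 := by
    rw [abs_mul, abs_mul, abs_mul, abs_mul, abs_of_pos he, abs_of_nonneg hN0,
      abs_of_nonneg (show 0 ≤ 2 * a by positivity)]
    calc e * (2 * a * |c| * |u| * N) ≤ e * (2 * 1 * 1 * A * A ^ 2) := by gcongr
      _ = 2 * (e * A ^ 3) := by ring
      _ ≤ 2 * (1 / 100) := by gcongr
      _ = 2 / 100 := by norm_num
  have h3 := abs_add_le (1 + e * (u ^ 2 - v ^ 2)) (e * (2 * a * c * u * N))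
  have h4 := abs_add_le 1 (e * (u ^ 2 - v ^ 2))
  rw [abs_one] at h4
  linarith

theorem tw_st (hG : GC1Statement) : TWStatement := by
  intro a ha ha1
  obtain ⟨e1, he1, h1⟩ := hG a (by linarith) ha1
  have ha0 : 0 < a := by linarith
  have h1a : 0 < 1 - a := by linarith
  refine ⟨min e1 ((1 - a) ^ 3 / 100), by positivity, fun e he hee => ?_⟩
  obtain ⟨-, -, hmem, -⟩ := h1 e he (hee.trans_le (min_le_left _ _))
  have he3 : e < (1 - a) ^ 3 / 100 := hee.trans_le (min_le_right _ _)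
  intro x y hxy
  rw [hmem]
  intro ζ hζ
  set A : ℝ := (1 - a)⁻¹ with hA
  have hA0 : 0 < A := inv_pos.2 h1a
  have hA2 : 2 ≤ A := by
    rw [hA, le_inv_comm₀ (by norm_num) h1a]
    linarith
  have heA : e * A ^ 3 ≤ 1 / 100 := by
    have h3 : (1 - a) ^ 3 * A ^ 3 = 1 := by
      rw [← mul_pow, hA, mul_inv_cancel₀ h1a.ne', one_pow]
    have h4 : e * A ^ 3 ≤ (1 - a) ^ 3 / 100 * A ^ 3 := by gcongr
    linarith
  -- nonvanishing denominators
  have hre : (1 - a * ζ : ℂ).re = 1 - a * ζ.re := by simp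
  have hζre : ζ.re ≤ 1 := (Complex.re_le_norm ζ).trans hζ.le
  have hζ0 : (1 - a * ζ : ℂ) ≠ 0 := by
    intro h
    rw [h, Complex.zero_re] at hre
    nlinarith
  have hp0 : (1 - a * (1 : ℂ)) ≠ 0 := by
    intro h
    have := congrArg Complex.re h
    simp at this
    linarith
  have hm0 : (1 - a * (-1 : ℂ)) ≠ 0 := by
    intro h
    have := congrArg Complex.re h
    simp at this
    linarith
  have hsubp := chi_sub (e := e) ha0 hp0 hζ0
  have hsubm := chi_sub (e := e) ha0 hm0 hζ0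
  set p : ℂ := (1 - a * ζ : ℂ)⁻¹ with hp
  set X : ℂ := 1 + e * p ^ 2 with hX
  have hchid : chid a e ζ = X := by
    rw [chid, hX, hp]
    field_simp
  have hBp : (1 - a * (1 : ℂ))⁻¹ = ((A : ℝ) : ℂ) := by
    rw [hA]
    push_cast
    ring
  have hBm : (1 - a * (-1 : ℂ))⁻¹ = (((1 + a)⁻¹ : ℝ) : ℂ) := by
    push_cast
    congr 1
    ring
  rw [hBp] at hsubp
  rw [hBm] at hsubm
  set κ : ℝ := √(1 - a ^ 2) / a with hκ
  have hκ0 : 0 ≤ κ := by positivity
  have hκ2 : κ ≤ 1 / 2 := by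
    rw [hκ, div_le_iff₀ ha0, Real.sqrt_le_left (by positivity)]
    nlinarith
  have hdp := point_bounds ha0 ha1 he hA heA hA2 hζ 1 A (Or.inl rfl) hA0.le le_rfl
  have hdm := point_bounds ha0 ha1 he hA heA hA2 hζ (-1) (1 + a)⁻¹ (Or.inr rfl) (by positivity)
    (by
      rw [hA]
      apply inv_anti₀ h1a
      linarith)
  have him := im_n_bound ha0 ha1 he hA heA hA2 hζ
  rw [← hp, ← hX] at hdp hdm him
  -- the decomposition
  have hxy' : (‖x‖ : ℂ) ^ 2 + (‖y‖ : ℂ) ^ 2 = 1 := by exact_mod_cast hxy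
  have hm : conj y * x - conj x * y = ((2 * (conj y * x).im : ℝ) : ℂ) * I := by
    have h5 : conj x * y = conj (conj y * x) := by
      rw [map_mul, Complex.conj_conj, mul_comm]
    rw [h5]
    have := Complex.sub_conj (conj y * x)
    rw [this]
  set m : ℝ := (conj y * x).im with hmdef
  have hmabs : |m| ≤ ‖x‖ * ‖y‖ := by
    refine (Complex.abs_im_le_norm _).trans ?_
    rw [norm_mul, Complex.norm_conj, mul_comm]
  have key : conj (ζ * chid a e ζ) * (chi a e ζ - (chi a e (-1) * ‖x‖ ^ 2 + chi a e 1 * ‖y‖ ^ 2 +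
      ((κ : ℝ) : ℂ) * (conj y * x - conj x * y))) =
      ((‖x‖ ^ 2 : ℝ) : ℂ) * (conj X * (1 + e * p * (((1 + a)⁻¹ : ℝ) : ℂ)) * (conj ζ * (ζ - ((-1 : ℝ) : ℂ)))) +
      ((‖y‖ ^ 2 : ℝ) : ℂ) * (conj X * (1 + e * p * ((A : ℝ) : ℂ)) * (conj ζ * (ζ - ((1 : ℝ) : ℂ)))) -
      ((2 * κ * m : ℝ) : ℂ) * (I * conj (ζ * X)) := by
    rw [hm, hchid]
    have h6 : chi a e ζ - (chi a e (-1) * ‖x‖ ^ 2 + chi a e 1 * ‖y‖ ^ 2 +
        ((κ : ℝ) : ℂ) * (((2 * m : ℝ) : ℂ) * I)) =
        ‖x‖ ^ 2 * (chi a e ζ - chi a e (-1)) + ‖y‖ ^ 2 * (chi a e ζ - chi a e 1) -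
          ((κ : ℝ) : ℂ) * (((2 * m : ℝ) : ℂ) * I) := by
      linear_combination (-chi a e ζ) * hxy'
    rw [h6, hsubp, hsubm, map_mul]
    push_cast
    ring
  rw [key, Complex.sub_re, Complex.add_re, Complex.re_ofReal_mul, Complex.re_ofReal_mul,
    Complex.re_ofReal_mul]
  have hI : (I * conj (ζ * X)).re = (ζ * X).im := by
    rw [Complex.mul_re, Complex.I_re, Complex.I_im, Complex.conj_im]
    ring
  rw [hI]
  -- final estimate
  set c := ζ.re with hc
  set s := ζ.im with hs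
  have hcs : c ^ 2 + s ^ 2 = 1 := by
    have : ‖ζ‖ ^ 2 = c ^ 2 + s ^ 2 := by
      rw [← Complex.normSq_eq_norm_sq, Complex.normSq_apply]
      ring
    rw [← this, hζ, one_pow]
  have h7 : ‖x‖ ^ 2 * (9 / 10 * (1 - -1 * c)) ≤
      ‖x‖ ^ 2 * (conj X * (1 + e * p * (((1 + a)⁻¹ : ℝ) : ℂ)) * (conj ζ * (ζ - ((-1 : ℝ) : ℂ)))).re := by
    gcongr
  have h8 : ‖y‖ ^ 2 * (9 / 10 * (1 - 1 * c)) ≤
      ‖y‖ ^ 2 * (conj X * (1 + e * p * ((A : ℝ) : ℂ)) * (conj ζ * (ζ - ((1 : ℝ) : ℂ)))).re := by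
    gcongr
  have h9 : 2 * κ * m * (ζ * X).im ≤ 2 * (1 / 2) * (‖x‖ * ‖y‖) * (11 / 10 * |s|) := by
    calc 2 * κ * m * (ζ * X).im ≤ |2 * κ * m * (ζ * X).im| := le_abs_self _
      _ = 2 * κ * |m| * |(ζ * X).im| := by
        rw [abs_mul, abs_mul, abs_of_nonneg (show 0 ≤ 2 * κ by positivity)]
      _ ≤ 2 * (1 / 2) * (‖x‖ * ‖y‖) * (11 / 10 * |s|) := by gcongr
  have h10 : 2 * (‖x‖ * ‖y‖) * |s| ≤ ‖x‖ ^ 2 * (1 + c) + ‖y‖ ^ 2 * (1 - c) := by
    have h11 : 0 ≤ ‖x‖ ^ 2 * (1 + c) + ‖y‖ ^ 2 * (1 - c) := by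
      have : -1 ≤ c := by nlinarith [sq_nonneg s]
      have h12 : 0 ≤ 1 + c := by linarith
      have h13 : 0 ≤ 1 - c := by linarith
      positivity
    apply le_of_sq_le_sq _ h11
    have h14 : (2 * (‖x‖ * ‖y‖) * |s|) ^ 2 = 4 * ‖x‖ ^ 2 * ‖y‖ ^ 2 * ((1 - c) * (1 + c)) := by
      rw [mul_pow, mul_pow, sq_abs]
      have : s ^ 2 = (1 - c) * (1 + c) := by linarith [hcs, show (1 - c) * (1 + c) = 1 - c ^ 2 by ring]
      rw [this]
      ring
    rw [h14]
    nlinarith [sq_nonneg (‖x‖ ^ 2 * (1 + c) - ‖y‖ ^ 2 * (1 - c))]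
  nlinarith [mul_nonneg (mul_nonneg (norm_nonneg x) (norm_nonneg y)) (abs_nonneg s)]

end C3N.H69
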